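import Pool.Agent.Y41.EV.StmD

/-!
Job EV-UPDET: upper bound for the `ψ`-sums if the fast times are rare.
-/

set_option autoImplicit false

namespace Pool.Agent.Y25.EV

open MeasureTheory Filter Topology Pool.Agent.Y41.EV

/-- non-overlapping intervals inside `G` have total length at most the measure of `G` -/
theorem sum_len_le {N : ℕ} {a b : ℕ → unitInterval} (hab : ∀ i < N, a i ≤ b i)
    (hd : ∀ i j, i < j → j < N → b i ≤ a j) (I : Finset ℕ) (hI : ∀ i ∈ I, i < N)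
    (G : Set unitInterval) (hG : ∀ i ∈ I, Set.Icc (a i) (b i) ⊆ G) :
    ∑ i ∈ I, ((b i : ℝ) - a i) ≤ (volume G).toReal := by
  have hdis : ∀ i j, i < j → j < N → Disjoint (Set.Ioc (a i) (b i)) (Set.Ioc (a j) (b j)) := by
    intro i j h hj
    rw [Set.disjoint_left]
    intro x hx hx'
    exact absurd (hx.2.trans (hd i j h hj)) (not_le.2 hx'.1)
  have h1 : volume (⋃ i ∈ I, Set.Ioc (a i) (b i)) = ∑ i ∈ I, volume (Set.Ioc (a i) (b i)) := by
    apply measure_biUnion_finset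
    · intro i hi j hj hij
      rcases lt_or_gt_of_ne hij with h | h
      · exact hdis i j h (hI j hj)
      · exact (hdis j i h (hI i hi)).symm
    · intro i _
      exact measurableSet_Ioc
  have h2 : volume (⋃ i ∈ I, Set.Ioc (a i) (b i)) ≤ volume G :=
    measure_mono (Set.iUnion₂_subset fun i hi => Set.Ioc_subset_Icc_self.trans (hG i hi))
  rw [h1] at h2
  have h3 : ∑ i ∈ I, ((b i : ℝ) - a i) = (∑ i ∈ I, volume (Set.Ioc (a i) (b i))).toReal := by
    rw [ENNReal.toReal_sum (fun i _ => measure_ne_top _ _)]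
    refine Finset.sum_congr rfl fun i hi => ?_
    rw [unitInterval.volume_Ioc, ENNReal.toReal_ofReal]
    have : (a i : ℝ) ≤ b i := hab i (hI i hi)
    linarith
  rw [h3]
  exact ENNReal.toReal_mono (measure_ne_top _ _) h2

/-- the displacement of class `j` raised to the power `7/4` -/
theorem yy_rpow {K : ℝ} (hK : 0 < K) (n j : ℕ) (hn : 0 ≤ Real.log n) :
    (2 * yy K n j) ^ (7/4 : ℝ) =
      ((2:ℝ) ^ j) ^ (7/4 : ℝ) * (2 * K) ^ (7/4 : ℝ) * ((1/2) ^ n * Real.log n ^ (3/4 : ℝ)) := by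
  have e1 : 2 * yy K n j = (2:ℝ) ^ j * (2 * K) *
      ((((1:ℝ)/2) ^ n) ^ (4/7 : ℝ) * Real.log n ^ (3/7 : ℝ)) := by
    unfold yy
    ring
  have h1 : (0:ℝ) ≤ ((1:ℝ)/2) ^ n := by positivity
  rw [e1, Real.mul_rpow (by positivity) (mul_nonneg (by positivity) (Real.rpow_nonneg hn _)),
    Real.mul_rpow (by positivity) (by positivity),
    Real.mul_rpow (by positivity) (Real.rpow_nonneg hn _), ← Real.rpow_mul h1, ← Real.rpow_mul hn]
  norm_num

theorem yy_zero_le {K : ℝ} (hK : 0 < K) : ∀ᶠ n : ℕ in atTop,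
    1 ≤ Real.log n ∧ 2 * yy K n 0 ≤ Real.exp (-Real.sqrt n) := by
  have h6 : Tendsto (fun n : ℕ => (n : ℝ) / 6) atTop atTop :=
    tendsto_natCast_atTop_atTop.atTop_div_const (by norm_num)
  have h0 := (Real.tendsto_pow_mul_exp_neg_atTop_nhds_zero 1).comp h6
  have h1 : ∀ᶠ n : ℕ in atTop, ((n : ℝ) / 6) ^ 1 * Real.exp (-((n : ℝ) / 6)) < 1 / (12 * K) :=
    h0.eventually (gt_mem_nhds (by positivity))
  filter_upwards [h1, eventually_ge_atTop 36] with n hn h36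
  have hn36 : (36 : ℝ) ≤ n := by exact_mod_cast h36
  have hlog : 1 ≤ Real.log n := by
    rw [Real.le_log_iff_exp_le (by linarith)]
    have := Real.exp_one_lt_d9
    linarith
  refine ⟨hlog, ?_⟩
  have e1 : ((1:ℝ)/2) ^ n = Real.exp (-(n * Real.log 2)) := by
    rw [← Real.rpow_natCast, Real.rpow_def_of_pos (by norm_num), one_div, Real.log_inv]
    congr 1
    ring
  have e2 : (((1:ℝ)/2) ^ n) ^ (4/7 : ℝ) ≤ Real.exp (-((n : ℝ) / 3)) := by
    rw [e1, ← Real.exp_mul, Real.exp_le_exp]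
    have := Real.log_two_gt_d9
    nlinarith
  have e3 : Real.log n ^ (3/7 : ℝ) ≤ n := by
    calc Real.log n ^ (3/7 : ℝ) ≤ Real.log n ^ (1 : ℝ) :=
          Real.rpow_le_rpow_of_exponent_le hlog (by norm_num)
      _ = Real.log n := Real.rpow_one _
      _ ≤ n := by
          have := Real.log_le_sub_one_of_pos (show (0:ℝ) < n by linarith)
          linarith
  have hsq : Real.sqrt n ≤ n / 6 := by
    rw [Real.sqrt_le_left (by positivity)]
    nlinarith
  have e4 : Real.exp (-((n : ℝ) / 3)) = Real.exp (-((n : ℝ) / 6)) * Real.exp (-((n : ℝ) / 6)) := by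
    rw [← Real.exp_add]
    congr 1
    ring
  have e5 : Real.exp (-((n : ℝ) / 6)) ≤ Real.exp (-Real.sqrt n) := by
    rw [Real.exp_le_exp]
    linarith
  have hp : 0 < Real.exp (-((n : ℝ) / 6)) := Real.exp_pos _
  rw [pow_one] at hn
  have hn' : (n : ℝ) * Real.exp (-((n : ℝ) / 6)) * (2 * K) ≤ 1 := by
    rw [lt_div_iff₀ (by positivity)] at hn
    linarith
  calc 2 * yy K n 0 = 2 * K * ((((1:ℝ)/2) ^ n) ^ (4/7 : ℝ) * Real.log n ^ (3/7 : ℝ)) := by
        unfold yy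
        ring
    _ ≤ 2 * K * (Real.exp (-((n : ℝ) / 3)) * n) := by
        gcongr
    _ = ((n : ℝ) * Real.exp (-((n : ℝ) / 6)) * (2 * K)) * Real.exp (-((n : ℝ) / 6)) := by
        rw [e4]
        ring
    _ ≤ 1 * Real.exp (-((n : ℝ) / 6)) := by
        gcongr
    _ ≤ Real.exp (-Real.sqrt n) := by
        rw [one_mul]
        exact e5

/-- class zero -/
theorem small_class (K : ℝ) (hK : 0 < K) : ∃ C : ℝ, 0 < C ∧ ∀ᶠ n : ℕ in atTop, ∀ D : ℝ, 0 ≤ D →
    D ≤ 2 * yy K n 0 → psi D ≤ C * (1/2) ^ n := by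
  refine ⟨(2 * K) ^ (7/4 : ℝ) / (1/2) ^ (3/4 : ℝ), by positivity, ?_⟩
  filter_upwards [yy_zero_le hK, eventually_gt_atTop 0] with n hn hn0 D hD hDn
  obtain ⟨hlog, hy⟩ := hn
  have hn0' : (0 : ℝ) < n := by exact_mod_cast hn0
  have hlog0 : 0 < Real.log n := by linarith
  have hypos : 0 < 2 * yy K n 0 := by
    unfold yy
    have h1 : 0 < Real.log n ^ (3/7 : ℝ) := Real.rpow_pos_of_pos hlog0 _
    positivity
  have hy1 : 2 * yy K n 0 ≤ 1 := hy.trans (Real.exp_le_one_iff.2 (by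
    have := Real.sqrt_nonneg (n : ℝ)
    linarith))
  have hll : 1 / 2 * Real.log n ≤ ll (2 * yy K n 0) := by
    unfold ll
    apply le_max_of_le_right
    have h1 : Real.sqrt n ≤ Real.log (1 / (2 * yy K n 0)) := by
      rw [one_div, Real.log_inv, le_neg]
      have := Real.log_le_log hypos hy
      rwa [Real.log_exp] at this
    have h2 : 0 < Real.sqrt n := Real.sqrt_pos.2 hn0'
    have h3 := Real.log_le_log h2 h1
    rw [Real.log_sqrt hn0'.le] at h3
    linarith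
  have hmain : psi (2 * yy K n 0) ≤ (2 * K) ^ (7/4 : ℝ) / (1/2) ^ (3/4 : ℝ) * (1/2) ^ n := by
    unfold psi
    have h34 : 0 < (1 / 2 * Real.log n) ^ (3/4 : ℝ) := Real.rpow_pos_of_pos (by positivity) _
    have h1 : (1 / 2 * Real.log n) ^ (3/4 : ℝ) ≤ ll (2 * yy K n 0) ^ (3/4 : ℝ) :=
      Real.rpow_le_rpow (by positivity) hll (by norm_num)
    calc (2 * yy K n 0) ^ (7/4 : ℝ) / ll (2 * yy K n 0) ^ (3/4 : ℝ)
        ≤ (2 * yy K n 0) ^ (7/4 : ℝ) / (1 / 2 * Real.log n) ^ (3/4 : ℝ) :=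
          div_le_div_of_nonneg_left (Real.rpow_nonneg hypos.le _) h34 h1
      _ = (2 * K) ^ (7/4 : ℝ) / (1/2) ^ (3/4 : ℝ) * (1/2) ^ n := by
          rw [yy_rpow hK n 0 hlog0.le, Real.mul_rpow (by norm_num) hlog0.le, pow_zero,
            Real.one_rpow]
          have h3 : Real.log n ^ (3/4 : ℝ) ≠ 0 := (Real.rpow_pos_of_pos hlog0 _).ne'
          have h4 : ((1:ℝ)/2) ^ (3/4 : ℝ) ≠ 0 := by positivity
          field_simp
  exact (psi_mono hD hDn hy1).trans hmain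

/-- the classes `j + 1` -/
theorem big_class {K : ℝ} (hK : 0 < K) {n : ℕ} (hn : 1 ≤ Real.log n) (j : ℕ) {D : ℝ} (hD : 0 ≤ D)
    (hDn : D ≤ 2 * yy K n (j + 1)) :
    psi D ≤ (2 * K) ^ (7/4 : ℝ) * 4 ^ (j + 1) * (2 * (n : ℝ) ^ (1/2 : ℝ)) * (1/2) ^ n := by
  have hlog0 : 0 < Real.log n := by linarith
  have h1 : psi D ≤ (2 * yy K n (j + 1)) ^ (7/4 : ℝ) :=
    (psi_le hD).trans (Real.rpow_le_rpow hD hDn (by norm_num))
  rw [yy_rpow hK n (j + 1) hlog0.le] at h1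
  have h2 : ((2:ℝ) ^ (j + 1)) ^ (7/4 : ℝ) ≤ 4 ^ (j + 1) := by
    calc ((2:ℝ) ^ (j + 1)) ^ (7/4 : ℝ) ≤ ((2:ℝ) ^ (j + 1)) ^ (2 : ℝ) :=
          Real.rpow_le_rpow_of_exponent_le (one_le_pow₀ (by norm_num)) (by norm_num)
      _ = 4 ^ (j + 1) := by
          rw [show (2:ℝ) = ((2:ℕ) : ℝ) by norm_num, Real.rpow_natCast, ← pow_mul, mul_comm, pow_mul]
          norm_num
  have h3 : Real.log n ^ (3/4 : ℝ) ≤ 2 * (n : ℝ) ^ (1/2 : ℝ) := by
    calc Real.log n ^ (3/4 : ℝ) ≤ Real.log n ^ (1 : ℝ) :=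
          Real.rpow_le_rpow_of_exponent_le hn (by norm_num)
      _ = Real.log n := Real.rpow_one _
      _ ≤ (n : ℝ) ^ (1/2 : ℝ) / (1/2) := Real.log_le_rpow_div (Nat.cast_nonneg n) (by norm_num)
      _ = 2 * (n : ℝ) ^ (1/2 : ℝ) := by ring
  have hK7 : 0 < (2 * K) ^ (7/4 : ℝ) := by positivity
  have h5 : 0 ≤ Real.log n ^ (3/4 : ℝ) := Real.rpow_nonneg hlog0.le _
  calc psi D ≤ _ := h1
    _ ≤ 4 ^ (j + 1) * (2 * K) ^ (7/4 : ℝ) * ((1/2) ^ n * (2 * (n : ℝ) ^ (1/2 : ℝ))) := by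
        gcongr
    _ = _ := by ring

/-- the class of a displacement -/
theorem exists_class {K : ℝ} (hK : 0 < K) {n : ℕ} (hn : 1 ≤ Real.log n) {D : ℝ}
    (hD : 2 * yy K n 0 < D) : ∃ j : ℕ, 2 * yy K n j < D ∧ D ≤ 2 * yy K n (j + 1) := by
  have hlog0 : 0 < Real.log n := by linarith
  obtain ⟨y, hy⟩ : ∃ y : ℝ, y = K * ((((1:ℝ)/2) ^ n) ^ (4/7 : ℝ) * Real.log n ^ (3/7 : ℝ)) :=
    ⟨_, rfl⟩
  have hy0 : 0 < y := by
    rw [hy]
    have h1 : 0 < Real.log n ^ (3/7 : ℝ) := Real.rpow_pos_of_pos hlog0 _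
    positivity
  have hyy : ∀ j, yy K n j = 2 ^ j * y := by
    intro j
    rw [hy]
    rfl
  have hex : ∃ j : ℕ, D ≤ 2 * yy K n j := by
    obtain ⟨j, hj⟩ := pow_unbounded_of_one_lt (D / (2 * y)) (by norm_num : (1:ℝ) < 2)
    refine ⟨j, ?_⟩
    rw [hyy]
    rw [div_lt_iff₀ (by positivity)] at hj
    linarith
  classical
  obtain ⟨j, hj⟩ : ∃ j, j = Nat.find hex := ⟨_, rfl⟩
  have h1 : D ≤ 2 * yy K n j := by
    rw [hj]
    exact Nat.find_spec hex
  rcases j with _ | j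
  · linarith
  · refine ⟨j, ?_, h1⟩
    have := Nat.find_min hex (m := j) (by omega)
    exact not_le.1 this

theorem weight_le {n : ℕ} (hn : 4 ≤ n) (j : ℕ) :
    4 ^ (j + 1) * (2 * (n : ℝ) ^ (1/2 : ℝ)) * (n : ℝ) ^ (-(2 * 2 ^ j) : ℝ) ≤
      8 * ((n : ℝ) ^ (-(3/2) : ℝ) * (1/4) ^ j) := by
  have hn4 : (4:ℝ) ≤ n := by exact_mod_cast hn
  have hn0 : (0:ℝ) < n := by linarith
  have h1 : (n : ℝ) ^ (-(2 * 2 ^ j) : ℝ) ≤ (n : ℝ) ^ (-2 : ℝ) * (1/16) ^ j := by
    have h2 : (n : ℝ) ^ (-(2 * 2 ^ j) : ℝ) ≤ (n : ℝ) ^ (-2 + (-2) * (j : ℝ)) := by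
      apply Real.rpow_le_rpow_of_exponent_le (by linarith)
      have h3 : ((j : ℝ) + 1) ≤ 2 ^ j := by
        have : j + 1 ≤ 2 ^ j := Nat.lt_two_pow_self
        exact_mod_cast this
      linarith
    refine h2.trans ?_
    rw [Real.rpow_add hn0, Real.rpow_mul hn0.le, Real.rpow_natCast]
    gcongr
    rw [Real.rpow_neg hn0.le, show ((1:ℝ)/16) = ((4:ℝ) ^ (2:ℝ))⁻¹ by norm_num]
    gcongr
  have h4 : (n : ℝ) ^ (1/2 : ℝ) * (n : ℝ) ^ (-2 : ℝ) = (n : ℝ) ^ (-(3/2) : ℝ) := by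
    rw [← Real.rpow_add hn0]
    norm_num
  calc 4 ^ (j + 1) * (2 * (n : ℝ) ^ (1/2 : ℝ)) * (n : ℝ) ^ (-(2 * 2 ^ j) : ℝ)
      ≤ 4 ^ (j + 1) * (2 * (n : ℝ) ^ (1/2 : ℝ)) * ((n : ℝ) ^ (-2 : ℝ) * (1/16) ^ j) := by
        gcongr
    _ = 8 * (((n : ℝ) ^ (1/2 : ℝ) * (n : ℝ) ^ (-2 : ℝ)) * (4 ^ j * (1/16) ^ j)) := by ring
    _ = _ := by
        rw [h4, ← mul_pow]
        norm_num

theorem updet : S_UPDET := by
  intro K hK
  obtain ⟨C, hC, hA⟩ := small_class K hK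
  refine ⟨2 * C, by positivity, ?_⟩
  rintro ⟨f, T⟩ hT ⟨n0, hF⟩ ε hε
  simp only at hT hF ⊢
  obtain ⟨M, hM⟩ : ∃ M : ℝ, M = 2 * (2 * K) ^ (7/4 : ℝ) := ⟨_, rfl⟩
  have hMpos : 0 < M := by rw [hM]; positivity
  -- the summable weights
  have hsum : Summable (fun x : ℕ × ℕ => (x.1 : ℝ) ^ (-(3/2) : ℝ) * (1/4 : ℝ) ^ x.2) := by
    have h1 : Summable (fun n : ℕ => (n : ℝ) ^ (-(3/2) : ℝ)) :=
      Real.summable_nat_rpow.2 (by norm_num)
    have h2 : Summable (fun j : ℕ => (1/4 : ℝ) ^ j) :=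
      summable_geometric_of_lt_one (by norm_num) (by norm_num)
    exact h1.mul_of_nonneg h2 (fun n => by positivity) (fun j => by positivity)
  rw [summable_iff_vanishing_norm] at hsum
  obtain ⟨s, hs⟩ := hsum (ε / (8 * M)) (by positivity)
  obtain ⟨nA, hnA⟩ := eventually_atTop.1 ((yy_zero_le hK).and hA)
  obtain ⟨n1, hn10, hn14, hn1A, hn1s⟩ : ∃ n1 : ℕ, n0 ≤ n1 ∧ 4 ≤ n1 ∧ nA ≤ n1 ∧ ∀ x ∈ s, x.1 < n1 := by
    refine ⟨n0 + 4 + nA + (s.sup Prod.fst + 1), by omega, by omega, by omega, fun x hx => ?_⟩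
    have := Finset.le_sup (f := Prod.fst) hx
    omega
  refine ⟨(1/2) ^ n1 / T, by positivity, ?_⟩
  intro N a b hab hd
  have habr : ∀ i < N, (a i : ℝ) ≤ b i := fun i hi => (hab i hi).1
  -- classification
  have hcl : ∀ i < N, psi (dist (f (a i)) (f (b i))) ≤ 2 * C * T * ((b i : ℝ) - a i) ∨
      ∃ k : ℕ × ℕ, n1 ≤ k.1 ∧ Set.Icc (a i) (b i) ⊆ FT (f, T) (yy K k.1 k.2) (2 * (1/2) ^ k.1) ∧
        psi (dist (f (a i)) (f (b i))) ≤ M * (4 ^ (k.2 + 1) * (2 * (k.1 : ℝ) ^ (1/2 : ℝ))) *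
          (T * ((b i : ℝ) - a i)) := by
    intro i hi
    rcases (habr i hi).eq_or_lt with he | hlt
    · left
      have : a i = b i := Subtype.ext he
      rw [this, dist_self, psi_zero, sub_self, mul_zero]
    obtain ⟨h, hh⟩ : ∃ h : ℝ, h = T * ((b i : ℝ) - a i) := ⟨_, rfl⟩
    have hh0 : 0 < h := by
      rw [hh]
      exact mul_pos hT (by linarith)
    have hh1 : h ≤ (1/2) ^ n1 := by
      have := (hab i hi).2
      rw [le_div_iff₀ hT] at this
      rw [hh]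
      linarith
    have hle1 : h ≤ 1 := hh1.trans (pow_le_one₀ (by norm_num) (by norm_num))
    obtain ⟨n, hn, hn'⟩ := exists_nat_pow_near_of_lt_one hh0 hle1
      (by norm_num : (0:ℝ) < 1/2) (by norm_num : (1:ℝ)/2 < 1)
    have hnn1 : n1 ≤ n := by
      by_contra hcon
      have h1 : n + 1 ≤ n1 := by omega
      have h2 : ((1:ℝ)/2) ^ n1 ≤ (1/2) ^ (n + 1) :=
        pow_le_pow_of_le_one (by norm_num) (by norm_num) h1
      linarith
    have h2n : ((1:ℝ)/2) ^ n ≤ 2 * h := by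
      rw [pow_succ] at hn
      linarith
    obtain ⟨⟨hlog, -⟩, hA'⟩ := hnA n (by omega)
    rcases le_or_gt (dist (f (a i)) (f (b i))) (2 * yy K n 0) with hD | hD
    · left
      calc psi (dist (f (a i)) (f (b i))) ≤ C * (1/2) ^ n := hA' _ dist_nonneg hD
        _ ≤ C * (2 * h) := mul_le_mul_of_nonneg_left h2n hC.le
        _ = _ := by rw [hh]; ring
    · right
      obtain ⟨j, hj1, hj2⟩ := exists_class hK hlog hD
      refine ⟨(n, j), hnn1, ?_, ?_⟩
      · intro t ht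
        have ht1 : (a i : ℝ) ≤ t := ht.1
        have ht2 : (t : ℝ) ≤ b i := ht.2
        have hpow : (0:ℝ) < (1/2) ^ n := by positivity
        rcases le_or_gt (dist (f (a i)) (f t)) (yy K n j) with hcase | hcase
        · refine ⟨b i, ?_, ?_⟩
          · change T * |(b i : ℝ) - t| < 2 * (1/2) ^ n
            rw [abs_of_nonneg (by linarith)]
            have : T * ((b i : ℝ) - t) ≤ h := by
              rw [hh]
              exact mul_le_mul_of_nonneg_left (by linarith) hT.le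
            linarith
          · change yy K n j < dist (f (b i)) (f t)
            have := dist_triangle (f (a i)) (f t) (f (b i))
            rw [dist_comm (f (b i)) (f t)]
            linarith
        · refine ⟨a i, ?_, hcase⟩
          change T * |(a i : ℝ) - t| < 2 * (1/2) ^ n
          rw [abs_of_nonpos (by linarith)]
          have : T * (-((a i : ℝ) - t)) ≤ h := by
            rw [hh]
            exact mul_le_mul_of_nonneg_left (by linarith) hT.le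
          linarith
      · have h3 := big_class hK hlog j dist_nonneg hj2
        have hK7 : 0 < (2 * K) ^ (7/4 : ℝ) := by positivity
        calc psi (dist (f (a i)) (f (b i)))
            ≤ (2 * K) ^ (7/4 : ℝ) * 4 ^ (j + 1) * (2 * (n : ℝ) ^ (1/2 : ℝ)) * (1/2) ^ n := h3
          _ ≤ (2 * K) ^ (7/4 : ℝ) * 4 ^ (j + 1) * (2 * (n : ℝ) ^ (1/2 : ℝ)) * (2 * h) :=
              mul_le_mul_of_nonneg_left h2n (by positivity)
          _ = _ := by
              rw [hh, hM]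
              ring
  classical
  obtain ⟨I, hI⟩ : ∃ I : Finset ℕ, I = (Finset.range N).filter
    (fun i => ¬ (psi (dist (f (a i)) (f (b i))) ≤ 2 * C * T * ((b i : ℝ) - a i))) := ⟨_, rfl⟩
  have hIN : ∀ i ∈ I, i < N := by
    intro i hi
    rw [hI, Finset.mem_filter, Finset.mem_range] at hi
    exact hi.1
  have hk : ∀ i, ∃ k : ℕ × ℕ, i ∈ I → n1 ≤ k.1 ∧
      Set.Icc (a i) (b i) ⊆ FT (f, T) (yy K k.1 k.2) (2 * (1/2) ^ k.1) ∧
        psi (dist (f (a i)) (f (b i))) ≤ M * (4 ^ (k.2 + 1) * (2 * (k.1 : ℝ) ^ (1/2 : ℝ))) *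
          (T * ((b i : ℝ) - a i)) := by
    intro i
    by_cases hi : i ∈ I
    · have hi' := hi
      rw [hI, Finset.mem_filter, Finset.mem_range] at hi'
      rcases hcl i hi'.1 with h | ⟨k, h⟩
      · exact absurd h hi'.2
      · exact ⟨k, fun _ => h⟩
    · exact ⟨(0, 0), fun h => absurd h hi⟩
  choose κ hκ using hk
  have hgood : ∑ i ∈ (Finset.range N).filter
      (fun i => psi (dist (f (a i)) (f (b i))) ≤ 2 * C * T * ((b i : ℝ) - a i)),
      psi (dist (f (a i)) (f (b i))) ≤ 2 * C * T * ∑ i ∈ Finset.range N, ((b i : ℝ) - a i) := by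
    rw [Finset.mul_sum]
    refine (Finset.sum_le_sum fun i hi => (Finset.mem_filter.1 hi).2).trans ?_
    refine Finset.sum_le_sum_of_subset_of_nonneg (Finset.filter_subset _ _) fun i hi _ => ?_
    have := habr i (Finset.mem_range.1 hi)
    exact mul_nonneg (by positivity) (by linarith)
  have hbad : ∑ i ∈ I, psi (dist (f (a i)) (f (b i))) ≤ ε := by
    have hmaps : ∀ i ∈ I, κ i ∈ I.image κ := fun i hi => Finset.mem_image_of_mem κ hi
    rw [← Finset.sum_fiberwise_of_maps_to hmaps]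
    have hfib : ∀ k ∈ I.image κ, ∑ i ∈ I.filter (fun i => κ i = k),
        psi (dist (f (a i)) (f (b i))) ≤
          8 * M * ((k.1 : ℝ) ^ (-(3/2) : ℝ) * (1/4 : ℝ) ^ k.2) := by
      intro k hk
      have hkn : n1 ≤ k.1 := by
        obtain ⟨i, hi, rfl⟩ := Finset.mem_image.1 hk
        exact (hκ i hi).1
      have hlen := sum_len_le (fun i hi => (hab i hi).1) hd (I.filter (fun i => κ i = k))
        (fun i hi => hIN i (Finset.mem_filter.1 hi).1)
        (FT (f, T) (yy K k.1 k.2) (2 * (1/2) ^ k.1)) (by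
          intro i hi
          obtain ⟨h1, h2⟩ := Finset.mem_filter.1 hi
          have := (hκ i h1).2.1
          rwa [h2] at this)
      have hft := hF k.1 (by omega) k.2
      have hw := weight_le (by omega : 4 ≤ k.1) k.2
      have hlen' : T * ∑ i ∈ I.filter (fun i => κ i = k), ((b i : ℝ) - a i) ≤
          (k.1 : ℝ) ^ (-(2 * 2 ^ k.2) : ℝ) :=
        (mul_le_mul_of_nonneg_left hlen hT.le).trans hft
      calc ∑ i ∈ I.filter (fun i => κ i = k), psi (dist (f (a i)) (f (b i)))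
          ≤ ∑ i ∈ I.filter (fun i => κ i = k),
            M * (4 ^ (k.2 + 1) * (2 * (k.1 : ℝ) ^ (1/2 : ℝ))) * (T * ((b i : ℝ) - a i)) := by
            refine Finset.sum_le_sum fun i hi => ?_
            obtain ⟨h1, h2⟩ := Finset.mem_filter.1 hi
            have := (hκ i h1).2.2
            rwa [h2] at this
        _ = M * (4 ^ (k.2 + 1) * (2 * (k.1 : ℝ) ^ (1/2 : ℝ))) *
            (T * ∑ i ∈ I.filter (fun i => κ i = k), ((b i : ℝ) - a i)) := by
            rw [← Finset.mul_sum, ← Finset.mul_sum]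
        _ ≤ M * (4 ^ (k.2 + 1) * (2 * (k.1 : ℝ) ^ (1/2 : ℝ))) *
            (k.1 : ℝ) ^ (-(2 * 2 ^ k.2) : ℝ) :=
            mul_le_mul_of_nonneg_left hlen' (by positivity)
        _ = M * (4 ^ (k.2 + 1) * (2 * (k.1 : ℝ) ^ (1/2 : ℝ)) *
            (k.1 : ℝ) ^ (-(2 * 2 ^ k.2) : ℝ)) := by ring
        _ ≤ M * (8 * ((k.1 : ℝ) ^ (-(3/2) : ℝ) * (1/4) ^ k.2)) :=
            mul_le_mul_of_nonneg_left hw hMpos.le
        _ = _ := by ring
    refine (Finset.sum_le_sum hfib).trans ?_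
    rw [← Finset.mul_sum]
    have hdisj : Disjoint (I.image κ) s := by
      rw [Finset.disjoint_left]
      intro x hx hxs
      obtain ⟨i, hi, rfl⟩ := Finset.mem_image.1 hx
      have h1 := (hκ i hi).1
      have h2 := hn1s _ hxs
      omega
    have h1 := hs _ hdisj
    have h2 := (le_abs_self _).trans_lt h1
    rw [lt_div_iff₀ (by positivity)] at h2
    linarith
  have hsplit := Finset.sum_filter_add_sum_filter_not (Finset.range N)
    (fun i => psi (dist (f (a i)) (f (b i))) ≤ 2 * C * T * ((b i : ℝ) - a i))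
    (fun i => psi (dist (f (a i)) (f (b i))))
  rw [← hI] at hsplit
  rw [← hsplit]
  exact add_le_add hgood hbad

end Pool.Agent.Y25.EV
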